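import Pool.Agent.W700.PS.Defs

/-! Subtask PS-T2abc of helper700 (MP_d957af_an): Weyl numbers of 2-summing operators, of products and
of sums. -/

set_option autoImplicit false

namespace Pool.Agent.W347.PS.T2

open Finset W700.PS

theorem t2a : S_T2a := by
  intro E _ _ a C hC hPi k H _ _ _ B hB
  set δ : ℝ := C / Real.sqrt (k + 1) with hδ
  have hsq : 0 < Real.sqrt (k + 1) := Real.sqrt_pos.mpr (by positivity)
  have hδ0 : 0 ≤ δ := by positivity
  -- good families
  let Good : ℕ → Prop := fun m => ∃ e : Fin m → H, Orthonormal ℂ e ∧ ∀ j, δ < ‖a (B (e j))‖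
  have hgood0 : Good 0 := ⟨Fin.elim0, ⟨fun i => i.elim0, fun i => i.elim0⟩, fun i => i.elim0⟩
  have hgoodle : ∀ m, Good m → m ≤ k := by
    rintro m ⟨e, he, hlt⟩
    by_contra hm
    push Not at hm
    have hadm : ∀ t : Fin m → ℂ, ‖∑ j, t j • B (e j)‖ ≤ Real.sqrt (∑ j, ‖t j‖ ^ 2) := by
      intro t
      have h1 : ∑ j, t j • B (e j) = B (∑ j, t j • e j) := by
        rw [map_sum]
        exact Finset.sum_congr rfl fun j _ => by rw [map_smul]
      rw [h1]
      refine (hB _).trans (le_of_eq ?_)
      rw [eq_comm, Real.sqrt_eq_iff_mul_self_eq (Finset.sum_nonneg fun _ _ => by positivity)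
        (norm_nonneg _)]
      have h2 := he.inner_sum t t Finset.univ
      have h3 : inner ℂ (∑ j, t j • e j) (∑ j, t j • e j) =
          ((‖∑ j, t j • e j‖ * ‖∑ j, t j • e j‖ : ℝ) : ℂ) := by
        rw [inner_self_eq_norm_sq_to_K, sq]
        push_cast
        rfl
      rw [h3] at h2
      have h4 : ∑ i, (starRingEnd ℂ) (t i) * t i = ((∑ i, ‖t i‖ ^ 2 : ℝ) : ℂ) := by
        push_cast
        refine Finset.sum_congr rfl fun i _ => ?_
        rw [RCLike.conj_mul]
        norm_cast
      rw [h4] at h2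
      exact (by exact_mod_cast h2.symm)
    have h5 := hPi m (fun j => B (e j)) hadm
    have h6 : C ^ 2 < ∑ j, ‖a (B (e j))‖ ^ 2 := by
      have hmpos : 0 < m := by omega
      have h7 : ∑ _j : Fin m, δ ^ 2 < ∑ j, ‖a (B (e j))‖ ^ 2 := by
        apply Finset.sum_lt_sum_of_nonempty
        · exact ⟨⟨0, hmpos⟩, Finset.mem_univ _⟩
        · intro j _
          exact pow_lt_pow_left₀ (hlt j) hδ0 (by norm_num)
      rw [Finset.sum_const, Finset.card_univ, Fintype.card_fin, nsmul_eq_mul] at h7
      have h8 : C ^ 2 = ((k : ℝ) + 1) * δ ^ 2 := by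
        rw [hδ, div_pow, Real.sq_sqrt (by positivity)]
        field_simp
      have h9 : ((k : ℝ) + 1) ≤ m := by exact_mod_cast hm
      calc C ^ 2 = ((k : ℝ) + 1) * δ ^ 2 := h8
        _ ≤ m * δ ^ 2 := by gcongr
        _ < _ := h7
    have h10 : C < Real.sqrt (∑ j, ‖a (B (e j))‖ ^ 2) := Real.lt_sqrt_of_sq_lt h6
    exact absurd h5 (not_le.mpr h10)
  -- a maximal good family
  classical
  obtain ⟨m, hm, hmax⟩ : ∃ m, Good m ∧ ¬ Good (m + 1) := by
    by_contra hcon
    push Not at hcon
    have hall : ∀ m, Good m := by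
      intro m
      induction m with
      | zero => exact hgood0
      | succ m ih => exact hcon m ih
    have := hgoodle (k + 1) (hall (k + 1))
    omega
  have hmk : m ≤ k := hgoodle m hm
  obtain ⟨e, he, hlt⟩ := hm
  set U : Submodule ℂ H := Submodule.span ℂ (Set.range e) with hU
  refine ⟨Uᗮ, ?_, ?_⟩
  · have h1 := Submodule.finrank_add_finrank_orthogonal U
    have h2 : Module.finrank ℂ U ≤ m := by
      have := finrank_range_le_card (R := ℂ) e
      rw [Fintype.card_fin] at this
      exact this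
    omega
  · intro x hx
    by_contra hcon
    push Not at hcon
    have hx0 : x ≠ 0 := by
      rintro rfl
      simp at hcon
    have hxn : 0 < ‖x‖ := norm_pos_iff.mpr hx0
    apply hmax
    refine ⟨Fin.snoc e (((‖x‖⁻¹ : ℝ) : ℂ) • x), ?_, ?_⟩
    · have hnorm : ‖((‖x‖⁻¹ : ℝ) : ℂ) • x‖ = 1 := by
        rw [norm_smul, Complex.norm_of_nonneg (by positivity), inv_mul_cancel₀ hxn.ne']
      have horth : ∀ i, inner ℂ (e i) x = 0 := by
        intro i
        exact (Submodule.mem_orthogonal U x).mp hx (e i) (Submodule.subset_span ⟨i, rfl⟩)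
      constructor
      · intro i
        refine Fin.lastCases ?_ (fun i => ?_) i
        · rw [Fin.snoc_last]
          exact hnorm
        · rw [Fin.snoc_castSucc]
          exact he.1 i
      · intro i j hij
        revert hij
        refine Fin.lastCases ?_ (fun i => ?_) i
        · refine Fin.lastCases ?_ (fun j => ?_) j
          · intro hij
            exact absurd rfl hij
          · intro _
            rw [Fin.snoc_last, Fin.snoc_castSucc, inner_smul_left, ← inner_conj_symm, horth]
            simp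
        · refine Fin.lastCases ?_ (fun j => ?_) j
          · intro _
            rw [Fin.snoc_last, Fin.snoc_castSucc, inner_smul_right, horth]
            simp
          · intro hij
            rw [Fin.snoc_castSucc, Fin.snoc_castSucc]
            exact he.2 (fun h => hij (by rw [h]))
    · intro j
      refine Fin.lastCases ?_ (fun j => ?_) j
      · rw [Fin.snoc_last, map_smul, map_smul, norm_smul, Complex.norm_of_nonneg (by positivity),
          inv_mul_eq_div, lt_div_iff₀ hxn]
        exact hcon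
      · rw [Fin.snoc_castSucc]
        exact hlt j

theorem t2b : S_T2b := by
  intro E _ _ a b k l δ δ' hδ hδ' ha hb H _ _ _ B hB
  obtain ⟨V, hV, hVb⟩ := hb H B hB
  rcases eq_or_lt_of_le hδ' with h0 | hpos
  · refine ⟨V, by omega, ?_⟩
    intro x hx
    have h1 := hVb x hx
    rw [← h0, zero_mul] at h1
    have h2 : b (B x) = 0 := norm_le_zero_iff.mp h1
    rw [ContinuousLinearMap.comp_apply, h2, map_zero, norm_zero, ← h0, mul_zero, zero_mul]
  · set B' : V →ₗ[ℂ] E := ((δ'⁻¹ : ℝ) : ℂ) • ((b : E →ₗ[ℂ] E) ∘ₗ B ∘ₗ V.subtype) with hB'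
    have hB'x : ∀ x : V, B' x = ((δ'⁻¹ : ℝ) : ℂ) • b (B x) := fun x => rfl
    obtain ⟨W, hW, hWa⟩ := ha V B' (by
      intro x
      rw [hB'x, norm_smul, Complex.norm_of_nonneg (by positivity), inv_mul_le_iff₀ hpos]
      exact hVb x x.2)
    refine ⟨W.map V.subtype, ?_, ?_⟩
    · have h1 : Module.finrank ℂ (W.map V.subtype) = Module.finrank ℂ W :=
        (Submodule.equivMapOfInjective V.subtype V.injective_subtype W).finrank_eq.symm
      omega
    · rintro _ ⟨x, hx, rfl⟩
      have h2 := hWa x hx
      rw [hB'x, map_smul, norm_smul, Complex.norm_of_nonneg (by positivity),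
        inv_mul_le_iff₀ hpos] at h2
      rw [ContinuousLinearMap.comp_apply]
      calc ‖a (b (B (V.subtype x)))‖ ≤ δ' * (δ * ‖x‖) := h2
        _ = δ * δ' * ‖V.subtype x‖ := by
            rw [Submodule.subtype_apply, Submodule.coe_norm]
            ring

theorem t2c : S_T2c := by
  intro E _ _ a b k l δ δ' ha hb H _ _ _ B hB
  obtain ⟨V, hV, hVa⟩ := ha H B hB
  obtain ⟨W, hW, hWb⟩ := hb H B hB
  refine ⟨V ⊓ W, ?_, ?_⟩
  · have h1 := Submodule.finrank_sup_add_finrank_inf_eq V W
    have h2 : Module.finrank ℂ ↥(V ⊔ W) ≤ Module.finrank ℂ H := Submodule.finrank_le _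
    omega
  · intro x hx
    rw [ContinuousLinearMap.add_apply, add_mul]
    exact (norm_add_le _ _).trans (add_le_add (hVa x hx.1) (hWb x hx.2))

end Pool.Agent.W347.PS.T2
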