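import Pool.Agent.W700.PS.Defs

/-! Subtask PS-T2d of helper700 (MP_d957af_an): the contradiction by doubling. -/

set_option autoImplicit false

namespace Pool.Agent.W347.PS.T2d

open Finset W700.PS

section
variable {E : Type} [NormedAddCommGroup E] [NormedSpace ℂ E]

theorem Sn.mono {k : ℕ} {δ δ' : ℝ} {a : E →L[ℂ] E} (h : Sn k δ a) (hd : δ ≤ δ') : Sn k δ' a := by
  intro H _ _ _ B hB
  obtain ⟨V, hV, hVa⟩ := h H B hB
  exact ⟨V, hV, fun x hx => (hVa x hx).trans (mul_le_mul_of_nonneg_right hd (norm_nonneg _))⟩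

theorem Sn.scale {k : ℕ} {δ : ℝ} {a : E →L[ℂ] E} (h : Sn k δ a) {r : ℝ} (hr : 0 ≤ r) :
    Sn k (r * δ) ((r : ℂ) • a) := by
  intro H _ _ _ B hB
  obtain ⟨V, hV, hVa⟩ := h H B hB
  refine ⟨V, hV, fun x hx => ?_⟩
  rw [ContinuousLinearMap.smul_apply, norm_smul, Complex.norm_of_nonneg hr, mul_assoc]
  exact mul_le_mul_of_nonneg_left (hVa x hx) hr

theorem Sn.perturb {k : ℕ} {δ e : ℝ} {a a' : E →L[ℂ] E} (h : Sn k δ a) (he : ‖a' - a‖ ≤ e) :
    Sn k (δ + e) a' := by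
  intro H _ _ _ B hB
  obtain ⟨V, hV, hVa⟩ := h H B hB
  refine ⟨V, hV, fun x hx => ?_⟩
  have h1 : a' (B x) = a (B x) + (a' - a) (B x) := by
    rw [ContinuousLinearMap.sub_apply]
    abel
  have he0 : 0 ≤ e := (norm_nonneg _).trans he
  rw [h1, add_mul]
  refine (norm_add_le _ _).trans (add_le_add (hVa x hx) ?_)
  calc ‖(a' - a) (B x)‖ ≤ ‖a' - a‖ * ‖B x‖ := (a' - a).le_opNorm _
    _ ≤ e * ‖x‖ := mul_le_mul he (hB x) (norm_nonneg _) he0

theorem Sn_zero : Sn 0 0 (0 : E →L[ℂ] E) := by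
  intro H _ _ _ B hB
  refine ⟨⊤, by simp, fun x _ => ?_⟩
  simp

theorem Sn_sum (h2c : S_T2c) {ι : Type} (s : Finset ι) (c : ι → E →L[ℂ] E) {k : ℕ} {δ : ℝ}
    (h : ∀ i ∈ s, Sn k δ (c i)) : Sn (s.card * k) (s.card * δ) (∑ i ∈ s, c i) := by
  classical
  induction s using Finset.induction_on with
  | empty => simpa using (Sn_zero : Sn 0 0 (0 : E →L[ℂ] E))
  | insert i s hi ih =>
    rw [Finset.sum_insert hi, Finset.card_insert_of_notMem hi]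
    have h1 := h2c E (c i) (∑ j ∈ s, c j) k (s.card * k) δ (s.card * δ)
      (h i (Finset.mem_insert_self _ _)) (ih fun j hj => h j (Finset.mem_insert_of_mem hj))
    have e1 : (s.card + 1) * k = k + s.card * k := by ring
    have e2 : ((s.card + 1 : ℕ) : ℝ) * δ = δ + s.card * δ := by push_cast; ring
    rw [e1, e2]
    exact h1

end

theorem arith (m k0 : ℕ) : ∃ j : ℕ, (2 * m) ^ j * k0 + 1 < 2 ^ (2 ^ j) := by
  obtain ⟨c, hc⟩ : ∃ c : ℕ, 2 * m + k0 + 1 ≤ 2 ^ c :=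
    ⟨2 * m + k0 + 1, Nat.lt_two_pow_self.le⟩
  refine ⟨4 * c, ?_⟩
  have h1 : (2 * m) ^ (4 * c) * k0 + 1 ≤ 2 ^ (c * (4 * c + 1)) := by
    have h2 : (2 * m) ^ (4 * c) ≤ (2 ^ c) ^ (4 * c) := Nat.pow_le_pow_left (by omega) _
    have h3 : 1 ≤ (2 ^ c) ^ (4 * c) := Nat.one_le_pow _ _ (by positivity)
    have h4 : k0 + 1 ≤ 2 ^ c := by omega
    calc (2 * m) ^ (4 * c) * k0 + 1 ≤ (2 ^ c) ^ (4 * c) * k0 + (2 ^ c) ^ (4 * c) :=
          add_le_add (Nat.mul_le_mul_right _ h2) h3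
      _ = (2 ^ c) ^ (4 * c) * (k0 + 1) := by ring
      _ ≤ (2 ^ c) ^ (4 * c) * 2 ^ c := Nat.mul_le_mul_left _ h4
      _ = 2 ^ (c * (4 * c + 1)) := by
          rw [← pow_succ, ← pow_mul]
  refine lt_of_le_of_lt h1 (Nat.pow_lt_pow_right (by norm_num) ?_)
  have h5 : 2 * c + 1 ≤ 2 ^ (2 * c) := Nat.lt_two_pow_self
  have h6 : 2 ^ (4 * c) = 2 ^ (2 * c) * 2 ^ (2 * c) := by rw [← pow_add]; congr 1; ring
  rw [h6]
  have h7 : (2 * c + 1) * (2 * c + 1) ≤ 2 ^ (2 * c) * 2 ^ (2 * c) := Nat.mul_le_mul h5 h5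
  nlinarith

theorem t2d : S_T2a → S_T2b → S_T2c → S_T2d := by
  intro h2a h2b h2c E _ _ A C hC hPi hp m M hm hM hUD
  let Q : ℕ → ℝ → Prop := fun k δ => ∀ u ∈ A, ‖u‖ ≤ 1 → Sn k δ u
  -- (1)
  have q1 : ∀ k : ℕ, Q k (C / Real.sqrt (k + 1)) := by
    intro k u hu hu1
    refine h2a E u C hC.le ?_ k
    intro n x hx
    refine (hPi u hu n x hx).trans ?_
    nlinarith
  -- (2)
  have q2 : ∀ (k : ℕ) (δ : ℝ), 0 < δ → Q k δ → Q (2 * m * k) ((m * M ^ 2 + 1) * δ ^ 2) := by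
    intro k δ hδ hQ u hu hu1
    obtain ⟨a, b, hab, hclose⟩ := hUD u hu hu1 (δ ^ 2) (by positivity)
    have hsc : ∀ c ∈ A, ‖c‖ ≤ M → Sn k (M * δ) c := by
      intro c hc hcM
      have h1 : ((M⁻¹ : ℝ) : ℂ) • c ∈ A := A.smul_mem _ hc
      have h2 : ‖((M⁻¹ : ℝ) : ℂ) • c‖ ≤ 1 := by
        rw [norm_smul, Complex.norm_of_nonneg (by positivity), inv_mul_le_iff₀ hM, mul_one]
        exact hcM
      have h3 := Sn.scale (hQ _ h1 h2) hM.le
      rw [smul_smul] at h3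
      have h4 : (M : ℂ) * ((M⁻¹ : ℝ) : ℂ) = 1 := by
        rw [← Complex.ofReal_mul, mul_inv_cancel₀ hM.ne', Complex.ofReal_one]
      rw [h4, one_smul] at h3
      exact h3
    have hprod : ∀ i ∈ (Finset.univ : Finset (Fin m)),
        Sn (k + k) (M * δ * (M * δ)) ((a i).comp (b i)) := by
      intro i _
      obtain ⟨ha, hb, haM, hbM⟩ := hab i
      exact h2b E (a i) (b i) k k (M * δ) (M * δ) (by positivity) (by positivity)
        (hsc _ ha haM) (hsc _ hb hbM)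
    have hsum := Sn_sum h2c Finset.univ (fun i => (a i).comp (b i)) hprod
    rw [Finset.card_univ, Fintype.card_fin] at hsum
    have hper := Sn.perturb hsum hclose
    have e1 : m * (k + k) = 2 * m * k := by ring
    have e2 : (m : ℝ) * (M * δ * (M * δ)) + δ ^ 2 = (m * M ^ 2 + 1) * δ ^ 2 := by ring
    rw [e1, e2] at hper
    exact hper
  -- (3)
  have q3 : ∀ (k : ℕ) (δ : ℝ), Q k δ → 1 / ((k : ℝ) + 1) ≤ δ := by
    intro k δ hQ
    obtain ⟨p, hpA, hp1, B, hB, hpB⟩ := hp (k + 1) (Nat.succ_pos k)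
    obtain ⟨V, hV, hVa⟩ := hQ p hpA hp1 (EuclideanSpace ℂ (Fin (k + 1))) B (fun x => (hB x).le)
    rw [finrank_euclideanSpace_fin] at hV
    have hpos : 0 < Module.finrank ℂ V := by omega
    haveI : Nontrivial V := Module.finrank_pos_iff.mp hpos
    obtain ⟨x, hx⟩ := exists_ne (0 : V)
    have hx' : (x : EuclideanSpace ℂ (Fin (k + 1))) ≠ 0 := fun h => hx (Subtype.ext h)
    have h1 := hVa x x.2
    rw [hpB, norm_smul, hB] at h1
    have hxn : 0 < ‖(x : EuclideanSpace ℂ (Fin (k + 1)))‖ := norm_pos_iff.mpr hx'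
    have h2 : ‖(1 / ((k + 1 : ℕ) : ℂ))‖ ≤ δ := le_of_mul_le_mul_right h1 hxn
    have h3 : ‖(1 / ((k + 1 : ℕ) : ℂ))‖ = 1 / ((k : ℝ) + 1) := by
      rw [norm_div, norm_one, Complex.norm_natCast]
      push_cast
      rfl
    rw [h3] at h2
    exact h2
  -- (4)
  set L : ℝ := m * M ^ 2 + 1 with hL
  have hL1 : 1 ≤ L := by
    have : (0 : ℝ) ≤ m * M ^ 2 := by positivity
    linarith
  obtain ⟨k0, hk0⟩ : ∃ k0 : ℕ, (2 * L * C) ^ 2 ≤ k0 := ⟨⌈(2 * L * C) ^ 2⌉₊, Nat.le_ceil _⟩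
  have hsq : 2 * L * C ≤ Real.sqrt (k0 + 1) := by
    apply Real.le_sqrt_of_sq_le
    linarith
  have hsq0 : 0 < Real.sqrt (k0 + 1) := Real.sqrt_pos.mpr (by positivity)
  have hiter : ∀ j : ℕ, ∃ δ : ℝ, 0 < δ ∧ L * δ ≤ (1 / 2) ^ (2 ^ j) ∧ Q ((2 * m) ^ j * k0) δ := by
    intro j
    induction j with
    | zero =>
      refine ⟨C / Real.sqrt (k0 + 1), by positivity, ?_, ?_⟩
      · rw [mul_div_assoc', div_le_iff₀ hsq0]
        norm_num
        linarith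
      · rw [pow_zero, one_mul]
        exact q1 k0
    | succ j ih =>
      obtain ⟨δ, hδ, hLδ, hQ⟩ := ih
      refine ⟨L * δ ^ 2, by positivity, ?_, ?_⟩
      · have h1 : L * (L * δ ^ 2) = (L * δ) ^ 2 := by ring
        rw [h1, pow_succ 2 j, pow_mul]
        exact pow_le_pow_left₀ (by positivity) hLδ 2
      · have h1 := q2 _ δ hδ hQ
        have e1 : 2 * m * ((2 * m) ^ j * k0) = (2 * m) ^ (j + 1) * k0 := by ring
        rw [e1] at h1
        exact h1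
  obtain ⟨j, hj⟩ := arith m k0
  obtain ⟨δ, hδ, hLδ, hQ⟩ := hiter j
  have h1 := q3 _ δ hQ
  have h2 : δ ≤ (1 / 2) ^ (2 ^ j) := by
    refine le_trans ?_ hLδ
    nlinarith
  have h3 : 1 / (((((2 * m) ^ j * k0 : ℕ)) : ℝ) + 1) ≤ (1 / 2) ^ (2 ^ j) := h1.trans h2
  rw [one_div_pow, one_div_le_one_div (by positivity) (by positivity)] at h3
  have h4 : 2 ^ 2 ^ j ≤ (2 * m) ^ j * k0 + 1 := by exact_mod_cast h3
  omega

end Pool.Agent.W347.PS.T2d
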