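import Pool.Agent.W700.PS.Defs

/-! Subtask PS-T3 of helper700 (MP_d957af_an): cotype two and the Rademacher extension property bound
the 2-summing norm of approximable operators. -/

set_option autoImplicit false

namespace Pool.Agent.W347.PS.T3

open Finset H601R3 W700.PS

section basics
variable {E : Type} [NormedAddCommGroup E] [NormedSpace ℂ E]

/-- Admissible families. -/
def Adm {ι : Type} [Fintype ι] (x : ι → E) : Prop :=
  ∀ t : ι → ℂ, ‖∑ j, t j • x j‖ ≤ Real.sqrt (∑ j, ‖t j‖ ^ 2)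

theorem PiB.fintype {C : ℝ} {a : E →L[ℂ] E} (h : PiB C a) {ι : Type} [Fintype ι] (x : ι → E)
    (hx : Adm x) : Real.sqrt (∑ j, ‖a (x j)‖ ^ 2) ≤ C := by
  have e := Fintype.equivFin ι
  have h1 := h (Fintype.card ι) (fun i => x (e.symm i)) (by
    intro t
    have h2 := hx (fun j => t (e j))
    have h3 : ∑ j, t (e j) • x j = ∑ i, t i • x (e.symm i) := by
      rw [← Equiv.sum_comp e]
      simp
    have h4 : ∑ j, ‖t (e j)‖ ^ 2 = ∑ i, ‖t i‖ ^ 2 := Equiv.sum_comp e (fun i => ‖t i‖ ^ 2)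
    rw [h3, h4] at h2
    exact h2)
  have h5 : ∑ i, ‖a (x (e.symm i))‖ ^ 2 = ∑ j, ‖a (x j)‖ ^ 2 :=
    Equiv.sum_comp e.symm (fun j => ‖a (x j)‖ ^ 2)
  rw [h5] at h1
  exact h1

theorem PiB.mono {C D : ℝ} {a : E →L[ℂ] E} (h : PiB C a) (hCD : C ≤ D) : PiB D a :=
  fun n x hx => (h n x hx).trans hCD

theorem PiB_zero : PiB 0 (0 : E →L[ℂ] E) := by
  intro n x _
  simp

theorem PiB.add {C D : ℝ} {a b : E →L[ℂ] E} (ha : PiB C a) (hb : PiB D b) :
    PiB (C + D) (a + b) := by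
  intro n x hx
  calc Real.sqrt (∑ j, ‖(a + b) (x j)‖ ^ 2)
      ≤ Real.sqrt (∑ j, (‖a (x j)‖ + ‖b (x j)‖) ^ 2) :=
        sqrt_sum_mono (fun j => norm_nonneg _) fun j => by
          rw [ContinuousLinearMap.add_apply]
          exact norm_add_le _ _
    _ ≤ _ := (sqrt_sum_add _ _).trans (add_le_add (ha n x hx) (hb n x hx))

theorem PiB.smul {C : ℝ} {a : E →L[ℂ] E} (c : ℂ) (ha : PiB C a) : PiB (‖c‖ * C) (c • a) := by
  intro n x hx
  have h1 : ∑ j, ‖(c • a) (x j)‖ ^ 2 = ‖c‖ ^ 2 * ∑ j, ‖a (x j)‖ ^ 2 := by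
    rw [Finset.mul_sum]
    refine Finset.sum_congr rfl fun j _ => ?_
    rw [ContinuousLinearMap.smul_apply, norm_smul, mul_pow]
  rw [h1, Real.sqrt_mul (by positivity), Real.sqrt_sq (norm_nonneg _)]
  exact mul_le_mul_of_nonneg_left (ha n x hx) (norm_nonneg _)

theorem PiB_rank_one (f : E →L[ℂ] ℂ) (y : E) : PiB (‖f‖ * ‖y‖) (f.smulRight y) := by
  intro n x hx
  set S : ℝ := ∑ j, ‖f (x j)‖ ^ 2 with hS
  have hS0 : 0 ≤ S := Finset.sum_nonneg fun _ _ => by positivity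
  have h1 : ∑ j, ‖(f.smulRight y) (x j)‖ ^ 2 = S * ‖y‖ ^ 2 := by
    rw [hS, Finset.sum_mul]
    refine Finset.sum_congr rfl fun j _ => ?_
    rw [ContinuousLinearMap.smulRight_apply, norm_smul, mul_pow]
  rw [h1, Real.sqrt_mul hS0, Real.sqrt_sq (norm_nonneg _)]
  refine mul_le_mul_of_nonneg_right ?_ (norm_nonneg _)
  -- duality
  have h2 := hx (fun j => (starRingEnd ℂ) (f (x j)))
  have h3 : ∑ j, ‖(starRingEnd ℂ) (f (x j))‖ ^ 2 = S := by
    rw [hS]
    refine Finset.sum_congr rfl fun j _ => ?_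
    rw [RCLike.norm_conj]
  rw [h3] at h2
  have h4 : f (∑ j, (starRingEnd ℂ) (f (x j)) • x j) = (S : ℂ) := by
    rw [map_sum, hS]
    push_cast
    refine Finset.sum_congr rfl fun j _ => ?_
    rw [map_smul, smul_eq_mul, RCLike.conj_mul]
    norm_cast
  have h5 : S ≤ ‖f‖ * Real.sqrt S := by
    have h6 := f.le_opNorm (∑ j, (starRingEnd ℂ) (f (x j)) • x j)
    rw [h4, Complex.norm_of_nonneg hS0] at h6
    exact h6.trans (mul_le_mul_of_nonneg_left h2 (norm_nonneg _))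
  by_contra hcon
  push Not at hcon
  have hpos : 0 < Real.sqrt S := lt_of_le_of_lt (norm_nonneg _) hcon
  have h7 : Real.sqrt S * Real.sqrt S = S := Real.mul_self_sqrt hS0
  nlinarith

theorem PiB_of_mem_FRk {a : E →L[ℂ] E} (ha : a ∈ FRk E) : ∃ P : ℝ, 0 ≤ P ∧ PiB P a := by
  unfold FRk at ha
  induction ha using Submodule.span_induction with
  | mem w hw =>
    obtain ⟨f, y, rfl⟩ := hw
    exact ⟨‖f‖ * ‖y‖, by positivity, PiB_rank_one f y⟩
  | zero => exact ⟨0, le_rfl, PiB_zero⟩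
  | add u v _ _ hu hv =>
    obtain ⟨P, hP, h1⟩ := hu
    obtain ⟨Q, hQ, h2⟩ := hv
    exact ⟨P + Q, by positivity, PiB.add h1 h2⟩
  | smul c u _ hu =>
    obtain ⟨P, hP, h1⟩ := hu
    exact ⟨‖c‖ * P, by positivity, PiB.smul c h1⟩

end basics

section walsh
variable {I : Type} [Fintype I] [DecidableEq I]

/-- The multiplier `(r^k - (-r)^k) / (2 r)`. -/
noncomputable def cc (r : ℝ) (S : Finset I) : ℝ := (r ^ S.card - (-r) ^ S.card) / (2 * r)

/-- The multiplier without its first level. -/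
noncomputable def gg (r : ℝ) (S : Finset I) : ℝ := if S.card = 1 then 0 else cc r S

theorem cc_card_one {r : ℝ} (hr : r ≠ 0) {S : Finset I} (h : S.card = 1) : cc r S = 1 := by
  unfold cc
  rw [h]
  field_simp
  ring

theorem abs_gg_le {r : ℝ} (hr : 0 < r) (hr1 : r ≤ 1) (S : Finset I) : |gg r S| ≤ r ^ 2 := by
  unfold gg
  split_ifs with h
  · rw [abs_zero]
    positivity
  · unfold cc
    rcases Nat.even_or_odd S.card with he | ho
    · rw [he.neg_pow, sub_self, zero_div, abs_zero]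
      positivity
    · rw [ho.neg_pow]
      have h3 : 3 ≤ S.card := by
        rcases ho with ⟨k, hk⟩
        omega
      obtain ⟨k, hk⟩ := Nat.exists_eq_add_of_le h3
      rw [hk]
      have h4 : (r ^ (3 + k) - -r ^ (3 + k)) / (2 * r) = r ^ 2 * r ^ k := by
        field_simp
        ring
      rw [h4, abs_of_nonneg (by positivity)]
      exact mul_le_of_le_one_right (by positivity) (pow_le_one₀ hr.le hr1)

theorem lev_eq {E : Type*} [AddCommGroup E] [Module ℝ E] {r : ℝ} (hr : r ≠ 0)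
    (b : (I → Bool) → E) :
    lev (fun i => hat b {i}) = (2 * r)⁻¹ • (T r b - T (-r) b) - mult (gg r) b := by
  refine ext_hat fun S => ?_
  rw [hat_sub, hat_smul, hat_sub, T_eq, T_eq, hat_mult, hat_mult, hat_mult]
  by_cases hS : S.card = 1
  · obtain ⟨i, rfl⟩ := Finset.card_eq_one.mp hS
    rw [hat_lev_singleton]
    unfold gg
    rw [if_pos hS, zero_smul, sub_zero, ← sub_smul, smul_smul]
    have : (2 * r)⁻¹ * (r ^ ({i} : Finset I).card - (-r) ^ ({i} : Finset I).card) = 1 := by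
      have := cc_card_one hr hS
      unfold cc at this
      rw [← this]
      ring
    rw [this, one_smul]
  · rw [hat_lev_of_ne _ _ hS]
    unfold gg
    rw [if_neg hS, ← sub_smul, smul_smul, ← sub_smul]
    have : (2 * r)⁻¹ * (r ^ S.card - (-r) ^ S.card) - cc r S = 0 := by
      unfold cc
      ring
    rw [this, zero_smul]

theorem norm_T_le {E : Type*} [NormedAddCommGroup E] [NormedSpace ℝ E] {ρ K : ℝ} (hρ : |ρ| ≤ 1)
    (b : (I → Bool) → E) (hb : ∀ ω, ‖b ω‖ ≤ K) (ε : I → Bool) : ‖T ρ b ε‖ ≤ K := by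
  have h1 : ‖T ρ b ε‖ ≤ T ρ (fun δ => ‖b δ‖) ε := T_le (normSeminorm ℝ E) hρ b ε
  refine h1.trans ?_
  unfold T
  have h2 : ∑ δ, ker ρ ε δ • ‖b δ‖ ≤ cn I * K := by
    rw [← ker_sum ρ ε, Finset.sum_mul]
    refine Finset.sum_le_sum fun δ _ => ?_
    rw [smul_eq_mul]
    exact mul_le_mul_of_nonneg_left (hb δ) (ker_nonneg hρ _ _)
  rw [smul_eq_mul]
  calc (cn I)⁻¹ * ∑ δ, ker ρ ε δ • ‖b δ‖ ≤ (cn I)⁻¹ * (cn I * K) :=
        mul_le_mul_of_nonneg_left h2 (inv_nonneg.2 cn_pos.le)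
    _ = K := by rw [inv_mul_cancel_left₀ cn_ne]

end walsh

section dual
variable {I : Type} [Fintype I] [DecidableEq I]
variable {E : Type} [NormedAddCommGroup E] [NormedSpace ℂ E]

theorem mult_dual (g : Finset I → ℝ) (b : (I → Bool) → E) (t : (I → Bool) → ℂ) :
    ∑ ε, t ε • mult g b ε = ∑ δ, mult g t δ • b δ := by
  have h1 : ∀ ε, t ε • mult g b ε =
      ∑ S, ∑ δ, (((g S * chi S ε * (cn I)⁻¹ * chi S δ : ℝ) : ℂ) * t ε) • b δ := by
    intro ε
    unfold mult hat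
    rw [Finset.smul_sum]
    refine Finset.sum_congr rfl fun S _ => ?_
    rw [smul_smul, Finset.smul_sum, Finset.smul_sum]
    refine Finset.sum_congr rfl fun δ _ => ?_
    rw [smul_smul, ← Complex.coe_smul, smul_smul, mul_comm (t ε)]
  have h2 : ∀ δ, mult g t δ • b δ =
      ∑ S, ∑ ε, (((g S * chi S ε * (cn I)⁻¹ * chi S δ : ℝ) : ℂ) * t ε) • b δ := by
    intro δ
    unfold mult hat
    rw [Finset.sum_smul]
    refine Finset.sum_congr rfl fun S _ => ?_
    rw [smul_smul, Finset.smul_sum, Finset.sum_smul]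
    refine Finset.sum_congr rfl fun ε _ => ?_
    congr 1
    rw [smul_smul, ← Complex.coe_smul, smul_eq_mul]
    congr 2
    ring
  simp_rw [h1, h2]
  rw [Finset.sum_comm]
  conv_rhs => rw [Finset.sum_comm]
  refine Finset.sum_congr rfl fun S _ => ?_
  rw [Finset.sum_comm]

theorem card_cube : ((Finset.univ : Finset (I → Bool)).card : ℝ) = cn I := by
  simp [cn]

theorem sum_norm_le (u : (I → Bool) → ℂ) :
    ∑ δ, ‖u δ‖ ≤ Real.sqrt (cn I) * Real.sqrt (∑ δ, ‖u δ‖ ^ 2) := by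
  rw [← Real.sqrt_mul cn_pos.le]
  apply Real.le_sqrt_of_sq_le
  have h := sq_sum_le_card_mul_sum_sq (s := (Finset.univ : Finset (I → Bool)))
    (f := fun δ => ‖u δ‖)
  rwa [card_cube] at h

theorem mult_gg_le {r : ℝ} (hr : 0 < r) (hr1 : r ≤ 1) (t : (I → Bool) → ℂ) :
    Real.sqrt (∑ δ, ‖mult (gg r) t δ‖ ^ 2) ≤ r ^ 2 * Real.sqrt (∑ δ, ‖t δ‖ ^ 2) := by
  have h1 : ∀ δ, mult (gg r) t δ = r ^ 2 • mult (fun S => gg r S / r ^ 2) t δ := by
    intro δ
    unfold mult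
    rw [Finset.smul_sum]
    refine Finset.sum_congr rfl fun S _ => ?_
    rw [smul_smul]
    congr 1
    field_simp
  have h2 : ∑ δ, ‖mult (fun S => gg r S / r ^ 2) t δ‖ ^ 2 ≤ ∑ δ, ‖t δ‖ ^ 2 := by
    refine mult_norm_le (fun S => ?_) t
    rw [abs_div, abs_of_pos (by positivity : (0 : ℝ) < r ^ 2), div_le_one (by positivity)]
    exact abs_gg_le hr hr1 S
  have h3 : ∑ δ, ‖mult (gg r) t δ‖ ^ 2 =
      (r ^ 2) ^ 2 * ∑ δ, ‖mult (fun S => gg r S / r ^ 2) t δ‖ ^ 2 := by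
    rw [Finset.mul_sum]
    refine Finset.sum_congr rfl fun δ _ => ?_
    rw [h1, norm_smul, mul_pow, Real.norm_of_nonneg (by positivity)]
  rw [h3, Real.sqrt_mul (by positivity), Real.sqrt_sq (by positivity)]
  exact mul_le_mul_of_nonneg_left (Real.sqrt_le_sqrt h2) (by positivity)

theorem norm_sum_mult_le {r : ℝ} (hr : 0 < r) (hr1 : r ≤ 1) {K : ℝ} (hK : 0 ≤ K)
    (b : (I → Bool) → E) (hb : ∀ ω, ‖b ω‖ ≤ K) (t : (I → Bool) → ℂ) :
    ‖∑ ε, t ε • mult (gg r) b ε‖ ≤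
      (r ^ 2 * K * Real.sqrt (cn I)) * Real.sqrt (∑ ε, ‖t ε‖ ^ 2) := by
  rw [mult_dual]
  calc ‖∑ δ, mult (gg r) t δ • b δ‖ ≤ ∑ δ, ‖mult (gg r) t δ • b δ‖ := norm_sum_le _ _
    _ ≤ ∑ δ, ‖mult (gg r) t δ‖ * K := by
        refine Finset.sum_le_sum fun δ _ => ?_
        rw [norm_smul]
        exact mul_le_mul_of_nonneg_left (hb δ) (norm_nonneg _)
    _ = (∑ δ, ‖mult (gg r) t δ‖) * K := by rw [Finset.sum_mul]
    _ ≤ (Real.sqrt (cn I) * Real.sqrt (∑ δ, ‖mult (gg r) t δ‖ ^ 2)) * K :=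
        mul_le_mul_of_nonneg_right (sum_norm_le _) hK
    _ ≤ (Real.sqrt (cn I) * (r ^ 2 * Real.sqrt (∑ δ, ‖t δ‖ ^ 2))) * K := by
        gcongr
        exact mult_gg_le hr hr1 t
    _ = _ := by ring

theorem Ex_norm_G_le {a : E →L[ℂ] E} {P : ℝ} (hP : PiB P a) {r : ℝ} (hr : 0 < r) (hr1 : r ≤ 1)
    {K : ℝ} (hK : 0 < K) (b : (I → Bool) → E) (hb : ∀ ω, ‖b ω‖ ≤ K) :
    Ex (fun ε => ‖a (mult (gg r) b ε)‖) ≤ K * r ^ 2 * P := by
  set D : ℝ := r ^ 2 * K * Real.sqrt (cn I) with hD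
  have hcn : 0 < Real.sqrt (cn I) := Real.sqrt_pos.mpr cn_pos
  have hDpos : 0 < D := by positivity
  have hadm : Adm (fun ε => ((D⁻¹ : ℝ) : ℂ) • mult (gg r) b ε) := by
    intro t
    have h1 : ∑ ε, t ε • (((D⁻¹ : ℝ) : ℂ) • mult (gg r) b ε) =
        ((D⁻¹ : ℝ) : ℂ) • ∑ ε, t ε • mult (gg r) b ε := by
      rw [Finset.smul_sum]
      refine Finset.sum_congr rfl fun ε _ => ?_
      rw [smul_comm]
    rw [h1, norm_smul, Complex.norm_of_nonneg (by positivity), inv_mul_le_iff₀ hDpos]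
    exact norm_sum_mult_le hr hr1 hK.le b hb t
  have h2 := PiB.fintype hP _ hadm
  have h3 : ∑ ε, ‖a (((D⁻¹ : ℝ) : ℂ) • mult (gg r) b ε)‖ ^ 2 =
      (D⁻¹) ^ 2 * ∑ ε, ‖a (mult (gg r) b ε)‖ ^ 2 := by
    rw [Finset.mul_sum]
    refine Finset.sum_congr rfl fun ε _ => ?_
    rw [map_smul, norm_smul, mul_pow, Complex.norm_of_nonneg (by positivity)]
  rw [h3, Real.sqrt_mul (by positivity), Real.sqrt_sq (by positivity),
    inv_mul_le_iff₀ hDpos] at h2
  refine (Ex_le_sqrt _).trans ?_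
  unfold Ex
  rw [Real.sqrt_mul (inv_nonneg.2 cn_pos.le), Real.sqrt_inv]
  calc (Real.sqrt (cn I))⁻¹ * Real.sqrt (∑ ε, ‖a (mult (gg r) b ε)‖ ^ 2)
      ≤ (Real.sqrt (cn I))⁻¹ * (D * P) := by gcongr
    _ = K * r ^ 2 * P := by
        rw [hD]
        field_simp

end dual

section key
variable {E : Type} [NormedAddCommGroup E] [NormedSpace ℂ E]

theorem key (hcot : Cot (fun x : E => ‖x‖) 1000) (hext : ExtP E 1000) (a : E →L[ℂ] E) {P : ℝ}
    (hPa : PiB P a) {r : ℝ} (hr : 0 < r) (hr1 : r ≤ 1) :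
    PiB (2 * 1000 * 1000 * (‖a‖ / r + r ^ 2 * P)) a := by
  intro n x hx
  have main : ∀ δ : ℝ, 0 < δ → Real.sqrt (∑ j, ‖a (x j)‖ ^ 2) ≤
      2 * 1000 * 1000 * (‖a‖ / r + r ^ 2 * P) + (2 * ‖a‖ * Real.sqrt n) * δ := by
    intro δ hδ
    obtain ⟨N, hN, b, hb, hbx⟩ := hext n x hx δ hδ
    set y : Fin N → E := fun i => hat b {i} with hy
    -- comparison of x and y
    have h1 : ∀ j : Fin n, ‖a (x j)‖ ≤ 2 * ‖a (y (Fin.castLE hN j))‖ + 2 * ‖a‖ * δ := by
      intro j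
      have e1 : x j = (2 : ℂ) • y (Fin.castLE hN j) -
          (2 : ℂ) • (y (Fin.castLE hN j) - (1 / 2 : ℂ) • x j) := by
        rw [smul_sub, smul_smul]
        norm_num
      calc ‖a (x j)‖ = ‖(2 : ℂ) • a (y (Fin.castLE hN j)) -
            (2 : ℂ) • a (y (Fin.castLE hN j) - (1 / 2 : ℂ) • x j)‖ := by
            conv_lhs => rw [e1]
            rw [map_sub, map_smul, map_smul]
        _ ≤ ‖(2 : ℂ) • a (y (Fin.castLE hN j))‖ +
            ‖(2 : ℂ) • a (y (Fin.castLE hN j) - (1 / 2 : ℂ) • x j)‖ := norm_sub_le _ _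
        _ = 2 * ‖a (y (Fin.castLE hN j))‖ +
            2 * ‖a (y (Fin.castLE hN j) - (1 / 2 : ℂ) • x j)‖ := by
            rw [norm_smul, norm_smul]
            norm_num
        _ ≤ 2 * ‖a (y (Fin.castLE hN j))‖ + 2 * (‖a‖ * δ) := by
            have := (a.le_opNorm (y (Fin.castLE hN j) - (1 / 2 : ℂ) • x j)).trans
              (mul_le_mul_of_nonneg_left (hbx j) (norm_nonneg _))
            linarith
        _ = _ := by ring
    have h2 : Real.sqrt (∑ j, ‖a (x j)‖ ^ 2) ≤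
        2 * Real.sqrt (∑ i, ‖a (y i)‖ ^ 2) + (2 * ‖a‖ * Real.sqrt n) * δ := by
      refine (sqrt_sum_mono (fun j => norm_nonneg _) h1).trans ?_
      refine (sqrt_sum_add _ _).trans ?_
      refine add_le_add ?_ ?_
      · have e2 : ∑ j : Fin n, (2 * ‖a (y (Fin.castLE hN j))‖) ^ 2 =
            2 ^ 2 * ∑ j : Fin n, ‖a (y (Fin.castLE hN j))‖ ^ 2 := by
          rw [Finset.mul_sum]
          exact Finset.sum_congr rfl fun j _ => mul_pow _ _ _
        rw [e2, Real.sqrt_mul (by norm_num), Real.sqrt_sq (by norm_num)]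
        refine mul_le_mul_of_nonneg_left (Real.sqrt_le_sqrt ?_) (by norm_num)
        have e3 : ∑ j : Fin n, ‖a (y (Fin.castLE hN j))‖ ^ 2 =
            ∑ i ∈ Finset.univ.image (Fin.castLE hN), ‖a (y i)‖ ^ 2 := by
          rw [Finset.sum_image]
          intro i _ j _ hij
          exact Fin.castLE_injective hN hij
        rw [e3]
        exact Finset.sum_le_univ_sum_of_nonneg fun i => by positivity
      · rw [Finset.sum_const, Finset.card_univ, Fintype.card_fin, nsmul_eq_mul,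
          Real.sqrt_mul (by positivity), Real.sqrt_sq (by positivity)]
        exact le_of_eq (by ring)
    -- cotype
    have h3 := hcot N (fun i => a (y i))
    have h4 : Ex (fun ε => ‖lev (fun i => a (y i)) ε‖) ≤ 1000 * (‖a‖ / r) + 1000 * r ^ 2 * P := by
      have hbound : ∀ ε, ‖lev (fun i => a (y i)) ε‖ ≤
          1000 * (‖a‖ / r) + ‖a (mult (gg r) b ε)‖ := by
        intro ε
        have e4 : lev (fun i => a (y i)) ε = a (lev y ε) :=
          (lev_map ((a : E →ₗ[ℂ] E).restrictScalars ℝ) y ε).symm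
        have e5 : lev y ε = (2 * r)⁻¹ • (T r b ε - T (-r) b ε) - mult (gg r) b ε := by
          have := congrFun (lev_eq (I := Fin N) hr.ne' b) ε
          exact this
        rw [e4, e5, map_sub]
        refine (norm_sub_le _ _).trans ?_
        refine add_le_add ?_ le_rfl
        refine (a.le_opNorm _).trans ?_
        have hrabs : |r| ≤ 1 := by rw [abs_of_pos hr]; exact hr1
        have hrabs' : |-r| ≤ 1 := by rw [abs_neg]; exact hrabs
        have e6 : ‖(2 * r)⁻¹ • (T r b ε - T (-r) b ε)‖ ≤ (2 * r)⁻¹ * (1000 + 1000) := by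
          rw [norm_smul, Real.norm_of_nonneg (by positivity)]
          refine mul_le_mul_of_nonneg_left ?_ (by positivity)
          exact (norm_sub_le _ _).trans (add_le_add (norm_T_le hrabs b hb ε)
            (norm_T_le hrabs' b hb ε))
        calc ‖a‖ * ‖(2 * r)⁻¹ • (T r b ε - T (-r) b ε)‖ ≤ ‖a‖ * ((2 * r)⁻¹ * (1000 + 1000)) :=
              mul_le_mul_of_nonneg_left e6 (norm_nonneg _)
          _ = 1000 * (‖a‖ / r) := by
              field_simp
              ring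
      refine (Ex_mono hbound).trans ?_
      rw [Ex_add, Ex_const]
      exact add_le_add le_rfl (Ex_norm_G_le hPa hr hr1 (by norm_num) b hb)
    calc Real.sqrt (∑ j, ‖a (x j)‖ ^ 2)
        ≤ 2 * Real.sqrt (∑ i, ‖a (y i)‖ ^ 2) + (2 * ‖a‖ * Real.sqrt n) * δ := h2
      _ ≤ 2 * (1000 * (1000 * (‖a‖ / r) + 1000 * r ^ 2 * P)) + (2 * ‖a‖ * Real.sqrt n) * δ := by
          have := h3.trans (mul_le_mul_of_nonneg_left h4 (by norm_num : (0 : ℝ) ≤ 1000))
          linarith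
      _ = _ := by ring
  set M : ℝ := 2 * ‖a‖ * Real.sqrt n with hM
  have hM0 : 0 ≤ M := by positivity
  refine le_of_forall_pos_le_add fun η hη => ?_
  refine (main (η / (M + 1)) (by positivity)).trans ?_
  have : M * (η / (M + 1)) ≤ η := by
    rw [mul_div_assoc', div_le_iff₀ (by positivity)]
    nlinarith
  linarith

theorem iterate (hcot : Cot (fun x : E => ‖x‖) 1000) (hext : ExtP E 1000) (a : E →L[ℂ] E) {P : ℝ}
    (hPa : PiB P a) (j : ℕ) : PiB (8000000000 * ‖a‖ + P / 2 ^ j) a := by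
  induction j with
  | zero =>
    refine PiB.mono hPa ?_
    have := norm_nonneg a
    simp
  | succ j ih =>
    have h := key hcot hext a ih (r := 1 / 2000) (by norm_num) (by norm_num)
    refine PiB.mono h (le_of_eq ?_)
    rw [pow_succ]
    field_simp
    ring

theorem PiB_FRk (hcot : Cot (fun x : E => ‖x‖) 1000) (hext : ExtP E 1000) {a : E →L[ℂ] E}
    (ha : a ∈ FRk E) : PiB (8000000000 * ‖a‖) a := by
  obtain ⟨P, hP, hPa⟩ := PiB_of_mem_FRk ha
  intro n x hx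
  refine le_of_forall_pos_le_add fun η hη => ?_
  obtain ⟨j, hj⟩ := pow_unbounded_of_one_lt (P / η) (one_lt_two (α := ℝ))
  refine (iterate hcot hext a hPa j n x hx).trans ?_
  have : P / 2 ^ j ≤ η := by
    rw [div_le_iff₀ (by positivity)]
    rw [div_lt_iff₀ hη] at hj
    linarith
  linarith

end key

theorem main : S_T3 := by
  intro E _ _ hcot hext
  refine ⟨8000000000, by norm_num, ?_⟩
  intro a ha n x hx
  have hclosed : IsClosed {u : E →L[ℂ] E | Real.sqrt (∑ j, ‖u (x j)‖ ^ 2) ≤ 8000000000 * ‖u‖} := by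
    apply isClosed_le
    · refine Real.continuous_sqrt.comp ?_
      refine continuous_finset_sum _ fun j _ => ?_
      refine Continuous.pow ?_ 2
      exact (ContinuousLinearMap.apply ℂ E (x j)).continuous.norm
    · exact continuous_const.mul continuous_norm
  exact closure_minimal (fun u hu => PiB_FRk hcot hext hu n x hx) hclosed ha

end Pool.Agent.W347.PS.T3
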