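import Pool.Agent.W787.PS.StmA

/-! Project PS (helper787): integrability, continuity and averages of logarithmic potentials. -/

open MeasureTheory Set Metric Filter Topology

noncomputable section

namespace Pool.Agent.W347.PS

open Pool.Agent.W787.PS

theorem locInt_log : LocallyIntegrable (fun z : ℂ => Real.log ‖z‖) := by
  rw [locallyIntegrable_iff]
  intro K hK
  obtain ⟨R, hR⟩ := hK.isBounded.subset_ball 0
  refine IntegrableOn.mono_set ?_ hR
  rw [integrableOn_fun_norm_addHaar (volume : Measure ℂ) (f := Real.log)]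
  have : ContinuousOn (fun y : ℝ => y * Real.log y) (Icc 0 R) :=
    Real.continuous_mul_log.continuousOn
  have h := this.integrableOn_Icc (μ := volume)
  refine (h.mono_set Ioo_subset_Icc_self).congr_fun ?_ measurableSet_Ioo
  intro y _
  simp [Complex.finrank_real_complex]

theorem conv_ex {k : ℂ → ℝ} (hk : LocallyIntegrable k) {ρ : ℂ → ℝ} (hρ : Continuous ρ)
    (hc : HasCompactSupport ρ) :
    (∀ x, Integrable (fun y => k (x - y) * ρ y)) ∧
      Continuous (fun x => ∫ y, k (x - y) * ρ y) := by
  constructor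
  · intro x
    have h := hc.convolutionExists_left (ContinuousLinearMap.mul ℝ ℝ) hρ hk x
    refine Integrable.congr h (Eventually.of_forall fun y => ?_)
    simp [mul_comm]
  · have h := hc.continuous_convolution_left (ContinuousLinearMap.mul ℝ ℝ) hρ hk
    refine h.congr fun x => ?_
    unfold MeasureTheory.convolution
    refine integral_congr_ae (Eventually.of_forall fun y => ?_)
    simp [mul_comm]

theorem poti : S_POTI := by
  intro ρ hρ hc
  obtain ⟨h1, h2⟩ := conv_ex locInt_log hρ hc
  exact ⟨h1, continuous_const.mul h2⟩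

theorem pota_int {ρ : ℂ → ℝ} (hρ : Continuous ρ) (hc : HasCompactSupport ρ)
    (a : ℂ) (r t : ℝ) :
    Integrable (fun p : ℂ × ℂ => Real.log ‖(t : ℂ) * p.1 - p.2‖ * ρ p.2)
      ((volume.restrict (ball a r)).prod volume) := by
  have hm : Measurable (fun p : ℂ × ℂ => Real.log ‖(t : ℂ) * p.1 - p.2‖ * ρ p.2) := by
    have h1 : Measurable (fun p : ℂ × ℂ => ‖(t : ℂ) * p.1 - p.2‖) := by
      have : Continuous (fun p : ℂ × ℂ => ‖(t : ℂ) * p.1 - p.2‖) := by fun_prop
      exact this.measurable
    exact (Real.measurable_log.comp h1).mul (hρ.measurable.comp measurable_snd)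
  rw [integrable_prod_iff hm.aestronglyMeasurable]
  constructor
  · exact Eventually.of_forall fun x => (poti ρ hρ hc).1 ((t : ℂ) * x)
  · have hk : LocallyIntegrable (fun z : ℂ => |Real.log ‖z‖|) := by
      intro x
      obtain ⟨s, hs, h⟩ := locInt_log x
      exact ⟨s, hs, h.norm⟩
    have h1 := (conv_ex (k := fun z : ℂ => |Real.log ‖z‖|) hk (ρ := fun y => |ρ y|)
      hρ.abs (hc.comp_left (g := fun y : ℝ => |y|) abs_zero)).2
    have h2 : Continuous (fun x : ℂ => ∫ y, |Real.log ‖(t : ℂ) * x - y‖| * |ρ y|) := by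
      have h3 : Continuous (fun x : ℂ => (t : ℂ) * x) := by fun_prop
      exact h1.comp h3
    have h4 : (fun x : ℂ => ∫ y, ‖Real.log ‖(t : ℂ) * x - y‖ * ρ y‖) =
        fun x : ℂ => ∫ y, |Real.log ‖(t : ℂ) * x - y‖| * |ρ y| := by
      funext x
      refine integral_congr_ae (Eventually.of_forall fun y => ?_)
      simp only [Real.norm_eq_abs, abs_mul]
    show Integrable (fun x : ℂ => ∫ y, ‖Real.log ‖(t : ℂ) * x - y‖ * ρ y‖) _
    rw [h4]
    exact (h2.continuousOn.integrableOn_compact (isCompact_closedBall a r)).mono_set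
      ball_subset_closedBall

theorem pota : S_POTA := by
  intro ρ hρ hc a r t hr ht
  have hint := pota_int hρ hc a r t
  have e1 : ∀ y : ℂ, avg (fun x => Real.log ‖(t : ℂ) * x - y‖) a r * ρ y =
      (Real.pi * r ^ 2)⁻¹ * ∫ x in ball a r, Real.log ‖(t : ℂ) * x - y‖ * ρ y := by
    intro y
    unfold avg
    rw [integral_mul_const]
    ring
  constructor
  · have h1 := hint.integral_prod_right
    refine (h1.const_mul (Real.pi * r ^ 2)⁻¹).congr (Eventually.of_forall fun y => ?_)
    exact (e1 y).symm
  · have h2 := integral_integral_swap (f := fun (x y : ℂ) => Real.log ‖(t : ℂ) * x - y‖ * ρ y)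
      (μ := volume.restrict (ball a r)) (ν := volume) hint
    have e2 : ∫ y, avg (fun x => Real.log ‖(t : ℂ) * x - y‖) a r * ρ y =
        (Real.pi * r ^ 2)⁻¹ * ∫ y, ∫ x in ball a r, Real.log ‖(t : ℂ) * x - y‖ * ρ y := by
      rw [← integral_const_mul]
      exact integral_congr_ae (Eventually.of_forall e1)
    rw [e2, ← h2]
    unfold avg pot
    rw [integral_const_mul]
    ring

theorem both : S_POTI ∧ S_POTA := ⟨poti, pota⟩

end Pool.Agent.W347.PS
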